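import Pool.Agent.Q204.GA.LocF

/-!
# Gaussian disorder, `d ≥ 3`: flat spectral measures and spread out eigenfunctions at all energies

`H_σ = Δ + σ ξ` on `ℤ^d`, `d ≥ 3`, `(Δψ)(x) = ∑_{|y-x|=1} ψ(y)`, iid standard Gaussian `ξ`.
There are `σ₀ > 0` and `K`, depending only on `d`, such that for `0 < σ ≤ σ₀`, with
probability at least `1 - exp(-σ^{-1/102})`,
* every spectral measure `m` of a vector `g` supported in the box of radius `exp(σ^{-1/102})`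
  satisfies `m [E - s, E + s] ≤ K log(1/σ) s ‖g‖₁²` at all energies `E` and for all `s ≥ σ^{2.1}`;
* every `ℓ²`-eigenfunction `u`, at whatever energy, satisfies
  `|u(x)|² ≤ K log(1/σ) σ^{2.1} ‖u‖²` at all sites of that box.
The kinetic scale is `σ²`; the scale `σ^{2.1}` is much smaller.
-/

set_option autoImplicit false

open scoped BigOperators ENNReal
open MeasureTheory ProbabilityTheory

namespace Pool.Agent.Results.MP_1906c1_mp.GaussianFlatSpectrum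

/-- `(H_σ ψ)(x) = ∑_{|y-x|=1} ψ(y) + σ ξ(x) ψ(x)` -/
noncomputable def H {d : ℕ} (σ : ℝ) (ξ : (Fin d → ℤ) → ℝ) (ψ : (Fin d → ℤ) → ℂ)
    (x : Fin d → ℤ) : ℂ :=
  ∑ i : Fin d, (ψ (x + Pi.single i 1) + ψ (x - Pi.single i 1)) + ((σ * ξ x : ℝ) : ℂ) * ψ x

/-- square summable functions -/
def SqSummable {d : ℕ} (u : (Fin d → ℤ) → ℂ) : Prop := Summable fun x => ‖u x‖ ^ 2

/-- `μ` is the spectral measure of the vector `g`: a finite measure whose Borel transform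
`∫ (E - z)⁻¹ dμ(E)` is `⟨g, (H - z)⁻¹ g⟩` for all non-real `z` -/
def IsSpectralMeasure {d : ℕ} (A : ((Fin d → ℤ) → ℂ) → (Fin d → ℤ) → ℂ) (g : (Fin d → ℤ) → ℂ)
    (μ : Measure ℝ) : Prop :=
  IsFiniteMeasure μ ∧ ∀ z : ℂ, z.im ≠ 0 → ∃ u : (Fin d → ℤ) → ℂ, SqSummable u ∧
    (∀ x, A u x - z * u x = g x) ∧ ∫ E : ℝ, ((E : ℂ) - z)⁻¹ ∂μ = ∑' x, (starRingEnd ℂ) (g x) * u x

/-- **Theorem.** -/
theorem result (d : ℕ) (hd : 3 ≤ d) :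
    ∃ σ0 K : ℝ, 0 < σ0 ∧ 0 < K ∧ ∀ σ : ℝ, 0 < σ → σ ≤ σ0 →
      ∃ G : Set ((Fin d → ℤ) → ℝ), MeasurableSet G ∧
        1 - Real.exp (-σ ^ (-(1 / 102) : ℝ)) ≤
          (Measure.infinitePi fun _ : Fin d → ℤ => gaussianReal 0 1).real G ∧
        ∀ ξ ∈ G,
          (∀ (g : (Fin d → ℤ) → ℂ) (A : Finset (Fin d → ℤ)),
            (∀ a ∈ A, ‖a‖ ≤ Real.exp (σ ^ (-(1 / 102) : ℝ))) → (∀ a, a ∉ A → g a = 0) →
            ∀ m : Measure ℝ, IsSpectralMeasure (H σ ξ) g m →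
            ∀ E s : ℝ, σ ^ (21 / 10 : ℝ) ≤ s →
            m.real (Set.Icc (E - s) (E + s)) ≤
              K * Real.log (1 / σ) * s * (∑ a ∈ A, ‖g a‖) ^ 2) ∧
          (∀ (E : ℝ) (u : (Fin d → ℤ) → ℂ), SqSummable u →
            (∀ x, H σ ξ u x = (E : ℂ) * u x) →
            ∀ a : Fin d → ℤ, ‖a‖ ≤ Real.exp (σ ^ (-(1 / 102) : ℝ)) →
            ‖u a‖ ^ 2 ≤ K * Real.log (1 / σ) * σ ^ (21 / 10 : ℝ) * ∑' x, ‖u x‖ ^ 2) := by
  obtain ⟨σ0, K, hσ0, hK, h⟩ := Pool.Agent.Q204.GA.flatG d hd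
  refine ⟨σ0, K, hσ0, hK, fun σ hσ hσ1 => ?_⟩
  obtain ⟨G, hG, hP, hL⟩ := h σ hσ hσ1
  refine ⟨G, hG, hP, fun ξ hξ => ⟨?_, ?_⟩⟩
  · intro g A hA hgA m hm E s hs
    exact (hL ξ hξ).1 g A hA hgA m hm.1 hm.2 E s hs
  · intro E u hu heq a ha
    exact (hL ξ hξ).2 E u hu heq a ha

end Pool.Agent.Results.MP_1906c1_mp.GaussianFlatSpectrum
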