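import Pool.Agent.Q204.GA.LocF

/-!
# Gaussian disorder, `d ≥ 3`: the local law for the spectral measures, at all energies

`H_σ = Δ + σ ξ` on `ℤ^d`, `d ≥ 3`, `(Δψ)(x) = ∑_{|y-x|=1} ψ(y)`, iid standard Gaussian `ξ`, weak
coupling `0 < σ ≤ σ₀(d)`. With probability at least `1 - exp(-σ^{-1/102})`, simultaneously for all
sites `|a| ≤ exp(σ^{-1/102})`, all energies `E` and all `s ≥ σ^{2.07}`, the spectral measure `m_a` of
`δ_a` for `H_σ` and the spectral measure `m_0` of `δ_a` for `Δ` satisfy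

`|m_a [E - s, E + s] - m_0 [E - s, E + s]| ≤ σ^{1/210} s`.

So the random spectral measures are close to the free one (whose density is of order one inside the
band), in windows which are much smaller than the kinetic scale `σ²`.
-/

set_option autoImplicit false

open scoped BigOperators ENNReal
open MeasureTheory ProbabilityTheory

namespace Pool.Agent.Results.MP_1906c1_mp.GaussianLocalLaw

/-- `(H_σ ψ)(x) = ∑_{|y-x|=1} ψ(y) + σ ξ(x) ψ(x)` -/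
noncomputable def H {d : ℕ} (σ : ℝ) (ξ : (Fin d → ℤ) → ℝ) (ψ : (Fin d → ℤ) → ℂ)
    (x : Fin d → ℤ) : ℂ :=
  ∑ i : Fin d, (ψ (x + Pi.single i 1) + ψ (x - Pi.single i 1)) + ((σ * ξ x : ℝ) : ℂ) * ψ x

/-- `m` is the spectral measure of `A` with respect to `δ_a`: a finite measure whose Borel transform
`∫ (t - z)⁻¹ dm(t)` is `⟨δ_a, (A - z)⁻¹ δ_a⟩` for all non-real `z` -/
def IsSpectralMeasure {d : ℕ} (A : ((Fin d → ℤ) → ℂ) → (Fin d → ℤ) → ℂ) (a : Fin d → ℤ)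
    (m : Measure ℝ) : Prop :=
  IsFiniteMeasure m ∧ ∀ z : ℂ, z.im ≠ 0 → ∃ u : (Fin d → ℤ) → ℂ,
    (Summable fun x => ‖u x‖ ^ 2) ∧ (∀ x, A u x - z * u x = if x = a then 1 else 0) ∧
    ∫ t : ℝ, ((t : ℂ) - z)⁻¹ ∂m = u a

/-- **Theorem.** -/
theorem result (d : ℕ) (hd : 3 ≤ d) :
    ∃ σ0 : ℝ, 0 < σ0 ∧ ∀ σ : ℝ, 0 < σ → σ ≤ σ0 →
      ∃ G : Set ((Fin d → ℤ) → ℝ), MeasurableSet G ∧
        1 - Real.exp (-σ ^ (-(1 / 102) : ℝ)) ≤
          (Measure.infinitePi fun _ : Fin d → ℤ => gaussianReal 0 1).real G ∧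
        ∀ ξ ∈ G, ∀ a : Fin d → ℤ, ‖a‖ ≤ Real.exp (σ ^ (-(1 / 102) : ℝ)) →
          ∀ m m0 : Measure ℝ, IsSpectralMeasure (H σ ξ) a m → IsSpectralMeasure (H 0 ξ) a m0 →
          ∀ E s : ℝ, σ ^ (207 / 100 : ℝ) ≤ s →
            |m.real (Set.Icc (E - s) (E + s)) - m0.real (Set.Icc (E - s) (E + s))| ≤
              σ ^ (1 / 210 : ℝ) * s := by
  obtain ⟨σ0, hσ0, h⟩ := Pool.Agent.Q204.GA.lawG d hd
  refine ⟨σ0, hσ0, fun σ hσ hσ1 => ?_⟩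
  obtain ⟨G, hG, hP, hL⟩ := h σ hσ hσ1
  refine ⟨G, hG, hP, fun ξ hξ a ha m m0 hm hm0 E s hs => ?_⟩
  refine hL ξ hξ a ha m m0 hm.1 hm0.1 hm.2 ?_ E s hs
  intro z hz
  obtain ⟨u, h1, h2, h3⟩ := hm0.2 z hz
  refine ⟨u, h1, fun x => ?_, h3⟩
  have h4 := h2 x
  unfold H at h4
  rw [zero_mul] at h4
  exact h4

end Pool.Agent.Results.MP_1906c1_mp.GaussianLocalLaw
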