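import Pool.Agent.Q204.GA.LenD

/-!
# Gaussian disorder, `d ≥ 3`: lower bounds for the localization length beyond the kinetic scale

`H_σ = Δ + σ ξ` on `ℤ^d`, `d ≥ 3`, `(Δψ)(x) = ∑_{|y-x|=1} ψ(y)`, iid standard Gaussian `ξ`. For every
`ε > 0` there are `δ, σ₀ > 0` such that for all `0 < σ ≤ σ₀` the following two statements hold, each of
them with probability at least `1 - exp(-σ^{-1/5000})`. Here a function `u` is called localized in the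
ball `B(y, R)` if its mass `∑_{|x-y|>R} |u(x)|²` outside the ball is at most `R^{-d-1}`.

A (all energies). For all `σ^{-1} ≤ R ≤ δ σ^{-2-1/86}`:
1. for every site `|a| ≤ exp(σ^{-1/5000})` and every orthonormal family of eigenfunctions `φ_i`
   localized in `B(a, R)`, `∑_i |φ_i(a)|² ≤ ε`;
2. for all `L` with `R ≤ L`, `L + R ≤ exp(σ^{-1/5000})` every orthonormal family `φ_1, …, φ_n` of
   eigenfunctions localized in balls `B(y_i, R)`, `|y_i| ≤ L`, has `n ≤ ε (2L+1)^d`.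

B (short energy windows of the bulk). Let `0 < κ ≤ 1` (`δ, σ₀` depend on `κ`). For all energies
`|e| ≤ 2d - κ`, all `σ^{2+1/41} ≤ η ≤ σ^{2+1/80}` and all `σ^{-1} ≤ R ≤ δ (η σ²)^{-1/2}`:
1. for every site `|a| ≤ exp(σ^{-1/5000})` and every orthonormal family of eigenfunctions `φ_i` with
   eigenvalues in `[e - η, e + η]` localized in `B(a, R)`, `∑_i |φ_i(a)|² ≤ ε η`;
2. for all `L` with `R ≤ L`, `L + R ≤ exp(σ^{-1/5000})` every orthonormal family `φ_1, …, φ_n` of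
   eigenfunctions with eigenvalues in `[e - η, e + η]`, localized in balls `B(y_i, R)`, `|y_i| ≤ L`,
   has `n ≤ ε η (2L+1)^d`.

The number of all states in the box is `(2L+1)^d`, the number of all states of the window is of the
order `η (2L+1)^d`: at most a fraction `ε` of the states is localized on a scale `R ≤ δ σ^{-2-1/86}`
(respectively `R ≤ δ (η σ²)^{-1/2}`, which is `δ σ^{-2-1/82}` for the shortest windows). The mean free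
path is of the order `σ^{-2}`.
-/

set_option autoImplicit false

open scoped BigOperators Topology
open MeasureTheory ProbabilityTheory Filter

namespace Pool.Agent.Results.MP_1906c1_mp.GaussianLocalizationLength

/-- `(H_σ ψ)(x) = ∑_{|y-x|=1} ψ(y) + σ ξ(x) ψ(x)` -/
noncomputable def H {d : ℕ} (σ : ℝ) (ξ : (Fin d → ℤ) → ℝ) (ψ : (Fin d → ℤ) → ℂ)
    (x : Fin d → ℤ) : ℂ :=
  ∑ i : Fin d, (ψ (x + Pi.single i 1) + ψ (x - Pi.single i 1)) + ((σ * ξ x : ℝ) : ℂ) * ψ x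

/-- `(φ_i)` is an orthonormal family of eigenfunctions of `H_σ` in `ℓ²(ℤ^d)`, with eigenvalues in the
set `I` -/
structure IsEigenfamily {d : ℕ} (σ : ℝ) (ξ : (Fin d → ℤ) → ℝ) (I : Set ℝ) {n : ℕ}
    (φ : Fin n → (Fin d → ℤ) → ℂ) : Prop where
  norm : ∀ i, HasSum (fun x => ‖φ i x‖ ^ 2) 1
  orth : ∀ i j, i ≠ j → ∑' x, (starRingEnd ℂ) (φ i x) * φ j x = 0
  eig : ∀ i, ∃ E : ℝ, E ∈ I ∧ ∀ x, H σ ξ (φ i) x = (E : ℂ) * φ i x

open Classical in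
/-- the mass `∑_{|x - y| > R} |u(x)|²` of `u` outside the ball `B(y, R)` -/
noncomputable def massOutside {d : ℕ} (u : (Fin d → ℤ) → ℂ) (y : Fin d → ℤ) (R : ℝ) : ℝ :=
  ∑' x, if R < ‖x - y‖ then ‖u x‖ ^ 2 else 0

/-- the localized eigenfunctions with eigenvalues in `I` have total weight at most `w` at every site
`a` of the box of radius `ρ`, and there are at most `w (2L+1)^d` of them in boxes of side `2L+1` -/
def FewLocalized {d : ℕ} (σ : ℝ) (ξ : (Fin d → ℤ) → ℝ) (I : Set ℝ) (R ρ w : ℝ) : Prop :=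
  (∀ a : Fin d → ℤ, ‖a‖ ≤ ρ →
    ∀ (n : ℕ) (φ : Fin n → (Fin d → ℤ) → ℂ), IsEigenfamily σ ξ I φ →
    (∀ i, massOutside (φ i) a R ≤ 1 / R ^ (d + 1)) → ∑ i, ‖φ i a‖ ^ 2 ≤ w) ∧
  ∀ L : ℝ, R ≤ L → L + R ≤ ρ →
    ∀ (n : ℕ) (φ : Fin n → (Fin d → ℤ) → ℂ) (y : Fin n → Fin d → ℤ),
    IsEigenfamily σ ξ I φ → (∀ i, ‖y i‖ ≤ L) →
    (∀ i, massOutside (φ i) (y i) R ≤ 1 / R ^ (d + 1)) →
    (n : ℝ) ≤ w * (2 * L + 1) ^ d

theorem eig_neg {d : ℕ} {σ : ℝ} {ξ : (Fin d → ℤ) → ℝ} {u : (Fin d → ℤ) → ℂ} {E : ℝ}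
    (h : ∀ x, H σ ξ u x = (E : ℂ) * u x) (x : Fin d → ℤ) :
    -Pool.Agent.W788.LD.Spec.S u x + ((-(σ * ξ x) : ℝ) : ℂ) * u x = ((-E : ℝ) : ℂ) * u x := by
  have h1 := h x
  unfold H at h1
  unfold Pool.Agent.W788.LD.Spec.S
  push_cast at h1 ⊢
  linear_combination -h1

theorem IsEigenfamily.fam {d : ℕ} {σ : ℝ} {ξ : (Fin d → ℤ) → ℝ} {I : Set ℝ} {n : ℕ}
    {φ : Fin n → (Fin d → ℤ) → ℂ} (h : IsEigenfamily σ ξ I φ) :
    Pool.Agent.Q62.QD.Fam d (fun x => -(σ * ξ x)) φ := by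
  refine ⟨h.norm, h.orth, fun i => ?_⟩
  obtain ⟨E, -, hE⟩ := h.eig i
  exact ⟨-E, eig_neg hE⟩

theorem IsEigenfamily.famW {d : ℕ} {σ : ℝ} {ξ : (Fin d → ℤ) → ℝ} {e η : ℝ} {n : ℕ}
    {φ : Fin n → (Fin d → ℤ) → ℂ} (h : IsEigenfamily σ ξ (Set.Icc (e - η) (e + η)) φ) :
    Pool.Agent.Q62.QD.FamW d (fun x => -(σ * ξ x)) (-e) η φ := by
  refine ⟨h.norm, h.orth, fun i => ?_⟩
  obtain ⟨E, hI, hE⟩ := h.eig i
  refine ⟨-E, ?_, eig_neg hE⟩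
  rw [abs_le]
  constructor <;> linarith [hI.1, hI.2]

open Classical in
theorem mass_eq {d : ℕ} (u : (Fin d → ℤ) → ℂ) (y : Fin d → ℤ) (R : ℝ) :
    massOutside u y R = ∑' x, (if ‖x - y‖ ≤ R then 0 else ‖u x‖ ^ 2) := by
  unfold massOutside
  refine tsum_congr fun x => ?_
  by_cases h : ‖x - y‖ ≤ R
  · rw [if_pos h, if_neg (not_lt.2 h)]
  · rw [if_neg h, if_pos (not_le.1 h)]

/-- **Theorem.** -/
theorem result (d : ℕ) (hd : 3 ≤ d) (ε : ℝ) (hε : 0 < ε) :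
    (∃ δ σ0 : ℝ, 0 < δ ∧ 0 < σ0 ∧ ∀ σ : ℝ, 0 < σ → σ ≤ σ0 →
      ∃ G : Set ((Fin d → ℤ) → ℝ), MeasurableSet G ∧
        1 - Real.exp (-σ ^ (-(1 / 5000) : ℝ)) ≤
          (Measure.infinitePi fun _ : Fin d → ℤ => gaussianReal 0 1).real G ∧
        ∀ ξ ∈ G, ∀ R : ℝ, 1 / σ ≤ R → R ≤ δ * σ ^ (-(2 + 1 / 86) : ℝ) →
          FewLocalized σ ξ Set.univ R (Real.exp (σ ^ (-(1 / 5000) : ℝ))) ε) ∧
    ∀ κ : ℝ, 0 < κ → κ ≤ 1 → ∃ δ σ0 : ℝ, 0 < δ ∧ 0 < σ0 ∧ ∀ σ : ℝ, 0 < σ → σ ≤ σ0 →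
      ∃ G : Set ((Fin d → ℤ) → ℝ), MeasurableSet G ∧
        1 - Real.exp (-σ ^ (-(1 / 5000) : ℝ)) ≤
          (Measure.infinitePi fun _ : Fin d → ℤ => gaussianReal 0 1).real G ∧
        ∀ ξ ∈ G, ∀ e : ℝ, |e| ≤ 2 * d - κ →
          ∀ η : ℝ, σ ^ (2 + 1 / 41 : ℝ) ≤ η → η ≤ σ ^ (2 + 1 / 80 : ℝ) →
          ∀ R : ℝ, 1 / σ ≤ R → R * Real.sqrt (η * σ ^ 2) ≤ δ →
          FewLocalized σ ξ (Set.Icc (e - η) (e + η)) R (Real.exp (σ ^ (-(1 / 5000) : ℝ)))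
            (ε * η) := by
  constructor
  · obtain ⟨δ, hδ, σ0, hσ0, h⟩ := Pool.Agent.Q204.GA.loclenG (d := d) hd ε hε
    refine ⟨δ, σ0, hδ, hσ0, fun σ hσ hσσ => ?_⟩
    obtain ⟨G, hG, hP, hL⟩ := h σ hσ hσσ
    refine ⟨G, hG, hP, fun ξ hξ R hR1 hR2 => ?_⟩
    obtain ⟨h1, h2⟩ := hL ξ hξ R hR1 hR2
    have e1 : 1 / R ^ (d + 1) = (1 / R) ^ (d + 1) := by
      rw [div_pow, one_pow]
    constructor
    · intro a ha n φ hφ ht
      exact h1 a ha (Fin n) φ hφ.fam fun i => by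
        rw [← mass_eq, ← e1]
        exact ht i
    · intro L hRL hLR n φ y hφ hy ht
      exact h2 L hRL hLR n φ y hφ.fam hy fun i => by
        rw [← mass_eq, ← e1]
        exact ht i
  · intro κ hκ hκ1
    obtain ⟨δ, hδ, σ0, hσ0, h⟩ := Pool.Agent.Q204.GA.windowsG (d := d) hd κ hκ hκ1 ε hε
    refine ⟨δ, σ0, hδ, hσ0, fun σ hσ hσσ => ?_⟩
    obtain ⟨G, hG, hP, hL⟩ := h σ hσ hσσ
    refine ⟨G, hG, hP, fun ξ hξ e he η hη1 hη2 R hR1 hR2 => ?_⟩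
    have hd3 : (3 : ℝ) ≤ d := by exact_mod_cast hd
    obtain ⟨h1, h2⟩ := hL ξ hξ e ⟨Or.inr ⟨hd, by linarith⟩, he⟩ η hη1 hη2 R hR1 hR2
    have e1 : 1 / R ^ (d + 1) = (1 / R) ^ (d + 1) := by
      rw [div_pow, one_pow]
    constructor
    · intro a ha n φ hφ ht
      exact h1 a ha (Fin n) φ hφ.famW fun i => by
        rw [← mass_eq, ← e1]
        exact ht i
    · intro L hRL hLR n φ y hφ hy ht
      exact h2 L hRL hLR n φ y hφ.famW hy fun i => by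
        rw [← mass_eq, ← e1]
        exact ht i

end Pool.Agent.Results.MP_1906c1_mp.GaussianLocalizationLength
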