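import Pool.Agent.Q204.GA.DifI
import Pool.Agent.Q204.GA.EvoH

/-!
# Gaussian disorder, `d ≥ 3`: quenched quantum diffusion beyond the kinetic time scale

`H_σ = Δ + σ ξ` on `ℤ^d`, `d ≥ 3`, `(Δψ)(x) = ∑_{|y-x|=1} ψ(y)`, iid standard Gaussian `ξ`. Let
`ψ_s = exp(-isH_σ) δ_a` be the solution of the Schrödinger equation started at the site `a`, `T` a
time with `σ^{-2-1/70} ≤ T ≤ σ^{-2-1/43}` (the kinetic time scale is `σ^{-2}`) and `L = T^{1/2} / σ`.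
For every `φ ∈ L¹(0, ∞)`, `K` and `ε > 0` and all `0 < σ ≤ σ₀(d, φ, K, ε)`, with probability at least
`1 - exp(-σ^{-1/5000})`, simultaneously for all sites `|a| ≤ exp(σ^{-1/5000})`, all these times `T`
and all `q ∈ ℝ^d` with `|q|² ≤ K`:

`∫_0^∞ φ(τ) ∑_x e^{i q·(x - a)/L} |ψ_{Tτ}(x)|² dτ = ∫_0^∞ φ(τ) N(τ, q) dτ + O(ε)`,

`N(τ, q) = π⁻¹ ∫_{|E| < 2d} exp(-2 τ D(E) |q|²) Im g₀(E) dE`.

Here `π⁻¹ Im g₀(E) dE` is the free density of states, a probability measure on `(-2d, 2d)`, and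
`D(E) > 0` is the diffusion constant of the linear Boltzmann equation at the energy `E`. So, for one
fixed realisation of the disorder, the position at the time `T τ`, in units of `L` and averaged over
arbitrarily short windows of `τ`, has in the limit the law of a Brownian motion with covariance
`4 D(E) τ` and with random energy `E`.
-/

set_option autoImplicit false

open scoped BigOperators Topology
open MeasureTheory ProbabilityTheory Filter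

namespace Pool.Agent.Results.MP_1906c1_mp.GaussianQuantumDiffusion

/-- `(H_σ ψ)(x) = ∑_{|y-x|=1} ψ(y) + σ ξ(x) ψ(x)` -/
noncomputable def H {d : ℕ} (σ : ℝ) (ξ : (Fin d → ℤ) → ℝ) (ψ : (Fin d → ℤ) → ℂ)
    (x : Fin d → ℤ) : ℂ :=
  ∑ i : Fin d, (ψ (x + Pi.single i 1) + ψ (x - Pi.single i 1)) + ((σ * ξ x : ℝ) : ℂ) * ψ x

/-- `ψ_s = exp(-isH_σ) δ_a`: the solution of `i dψ/ds = H_σ ψ` in `ℓ²(ℤ^d)` with `ψ_0 = δ_a` -/
structure IsEvolution {d : ℕ} (σ : ℝ) (ξ : (Fin d → ℤ) → ℝ) (a : Fin d → ℤ)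
    (ψ : ℝ → (Fin d → ℤ) → ℂ) : Prop where
  init : ∀ x, ψ 0 x = if x = a then 1 else 0
  ode : ∀ s x, HasDerivAt (fun s => ψ s x) (-Complex.I * H σ ξ (ψ s) x) s
  norm : ∀ s, HasSum (fun x => ‖ψ s x‖ ^ 2) 1

/-- `∫_0^1 exp(-is · 2 cos 2πx) dx` -/
noncomputable def p0 (s : ℝ) : ℂ :=
  ∫ x in (0 : ℝ)..1, Complex.exp (Complex.I * ((-s * (2 * Real.cos (2 * Real.pi * x)) : ℝ) : ℂ))

/-- `∫_0^1 sin²(2πx) exp(-is · 2 cos 2πx) dx` -/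
noncomputable def p1 (s : ℝ) : ℂ :=
  ∫ x in (0 : ℝ)..1, ((Real.sin (2 * Real.pi * x) ^ 2 : ℝ) : ℂ) *
    Complex.exp (Complex.I * ((-s * (2 * Real.cos (2 * Real.pi * x)) : ℝ) : ℂ))

/-- the boundary value `∫_{[0,1]^d} (∑ 2 cos 2πk_i - E - i0)⁻¹ dk` -/
noncomputable def g0 (d : ℕ) (E : ℝ) : ℂ :=
  Complex.I * ∫ s in Set.Ioi (0 : ℝ), p0 s ^ d * Complex.exp (Complex.I * (E : ℂ) * s)

/-- the boundary value `∫_{[0,1]^d} sin²(2πk_1) (∑ 2 cos 2πk_i - E - i0)⁻¹ dk` -/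
noncomputable def g1 (d : ℕ) (E : ℝ) : ℂ :=
  Complex.I * ∫ s in Set.Ioi (0 : ℝ), p1 s * p0 s ^ (d - 1) * Complex.exp (Complex.I * (E : ℂ) * s)

/-- the diffusion constant at the energy `E` -/
noncomputable def D (d : ℕ) (E : ℝ) : ℝ := (g1 d E).im / (g0 d E).im ^ 2

/-- the mixture of Gaussian characteristic functions -/
noncomputable def N (d : ℕ) (τ Q : ℝ) : ℝ :=
  1 / Real.pi * ∫ E in Set.Ioo (-(2 * (d : ℝ))) (2 * d),
    Real.exp (-(2 * τ * D d E * Q)) * (g0 d E).im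

theorem g0_eq (d : ℕ) (hd : 3 ≤ d) (E : ℝ) : Pool.Agent.Q62.QD.G0 d E = g0 d E :=
  Pool.Agent.Q62.QD.bvl_of (Pool.Agent.TH794.QE.lim3 _ _
    (Pool.Agent.TH794.QD.hol0 Pool.Agent.Q62.QD.sO d hd) E)

theorem g1_eq (d : ℕ) (hd : 3 ≤ d) (E : ℝ) : Pool.Agent.Q62.QD.G1 d E = g1 d E :=
  Pool.Agent.Q62.QD.bvl_of (Pool.Agent.TH794.QE.lim3 _ _
    (Pool.Agent.TH794.QD.hol1 Pool.Agent.Q62.QD.sO d hd) E)

theorem N_eq (d : ℕ) (hd : 3 ≤ d) (τ Q : ℝ) : Pool.Agent.Q62.QD.Nq d Q τ = N d τ Q := by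
  unfold Pool.Agent.Q62.QD.Nq N Pool.Agent.Q62.QD.Ba Pool.Agent.Q62.QD.Dc D
  congr 1
  refine integral_congr_ae (Filter.Eventually.of_forall fun E => ?_)
  simp only
  rw [g0_eq d hd, g1_eq d hd, mul_comm]
  congr 2
  ring

theorem conj_H {d : ℕ} (σ : ℝ) (ξ : (Fin d → ℤ) → ℝ) (u : (Fin d → ℤ) → ℂ) (x : Fin d → ℤ) :
    (starRingEnd ℂ) (-Complex.I * H σ ξ u x) = -Complex.I *
      (-Pool.Agent.W788.LD.Spec.S (fun y => (starRingEnd ℂ) (u y)) x +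
        ((-(σ * ξ x) : ℝ) : ℂ) * (starRingEnd ℂ) (u x)) := by
  unfold H Pool.Agent.W788.LD.Spec.S
  rw [map_mul, map_neg, Complex.conj_I, map_add, map_mul, Complex.conj_ofReal, map_sum]
  simp only [map_add]
  push_cast
  ring

theorem evo_conj {d : ℕ} (σ : ℝ) (ξ : (Fin d → ℤ) → ℝ) (a : Fin d → ℤ)
    (ψ : ℝ → (Fin d → ℤ) → ℂ) (h : IsEvolution σ ξ a ψ) :
    Pool.Agent.TH794.QD.Sol d (fun x => -(σ * ξ x)) a fun s x => (starRingEnd ℂ) (ψ s x) := by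
  refine ⟨fun x => ?_, fun s x => ?_, fun s => ?_⟩
  · rw [h.init x]
    split_ifs <;> simp
  · have h1 := (Complex.conjCLE.toContinuousLinearMap.hasFDerivAt).comp_hasDerivAt s (h.ode s x)
    refine h1.congr_deriv ?_
    exact conj_H σ ξ (ψ s) x
  · have h1 := h.norm s
    simp only [Complex.norm_conj]
    exact h1

theorem evo_of {d : ℕ} (σ : ℝ) (ξ : (Fin d → ℤ) → ℝ) (a : Fin d → ℤ)
    (ψ : ℝ → (Fin d → ℤ) → ℂ)
    (h : Pool.Agent.TH794.QD.Sol d (fun x => -(σ * ξ x)) a ψ) :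
    IsEvolution σ ξ a fun s x => (starRingEnd ℂ) (ψ s x) := by
  refine ⟨fun x => ?_, fun s x => ?_, fun s => ?_⟩
  · rw [h.init x]
    split_ifs <;> simp
  · have h1 := (Complex.conjCLE.toContinuousLinearMap.hasFDerivAt).comp_hasDerivAt s (h.ode s x)
    refine h1.congr_deriv ?_
    have h2 := conj_H σ ξ (fun y => (starRingEnd ℂ) (ψ s y)) x
    simp only [Complex.conj_conj] at h2
    change (starRingEnd ℂ) _ = _
    rw [← h2, Complex.conj_conj]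
  · have h1 := h.norm s
    simp only [Complex.norm_conj]
    exact h1

/-- **Theorem.** -/
theorem result (d : ℕ) (hd : 3 ≤ d) :
    ((∀ E : ℝ, |E| < 2 * d → 0 < (g1 d E).im ∧ (g1 d E).im ≤ (g0 d E).im) ∧
      ∫ E in Set.Ioo (-(2 * (d : ℝ))) (2 * d), (g0 d E).im = Real.pi) ∧
    ∀ (φ : ℝ → ℝ), IntegrableOn φ (Set.Ioi 0) →
    ∀ K ε : ℝ, 0 ≤ K → 0 < ε → ∃ σ0 : ℝ, 0 < σ0 ∧ ∀ σ : ℝ, 0 < σ → σ ≤ σ0 →
      ∃ G : Set ((Fin d → ℤ) → ℝ), MeasurableSet G ∧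
        1 - Real.exp (-σ ^ (-(1 / 5000) : ℝ)) ≤
          (Measure.infinitePi fun _ : Fin d → ℤ => gaussianReal 0 1).real G ∧
        ∀ ξ ∈ G, ∀ a : Fin d → ℤ, ‖a‖ ≤ Real.exp (σ ^ (-(1 / 5000) : ℝ)) →
          (∃ ψ, IsEvolution σ ξ a ψ) ∧
          ∀ ψ, IsEvolution σ ξ a ψ →
          ∀ T : ℝ, σ ^ (-(2 + 1 / 70) : ℝ) ≤ T → T ≤ σ ^ (-(2 + 1 / 43) : ℝ) →
          ∀ q : Fin d → ℝ, ∑ i, q i ^ 2 ≤ K →
            ‖(∫ τ in Set.Ioi (0 : ℝ), (φ τ : ℂ) * ∑' x, Complex.exp (Complex.I *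
                ((Real.sqrt (σ ^ 2 / T) * ∑ i, q i * ((x i : ℝ) - a i) : ℝ) : ℂ)) *
                ((‖ψ (T * τ) x‖ ^ 2 : ℝ) : ℂ)) -
              ((∫ τ in Set.Ioi (0 : ℝ), φ τ * N d τ (∑ i, q i ^ 2) : ℝ) : ℂ)‖ ≤ ε := by
  have hd2 : 2 ≤ d := by omega
  have hO := Pool.Agent.Q62.QD.sO
  refine ⟨⟨fun E hE => ?_, ?_⟩, fun φ hφ K ε hK hε => ?_⟩
  · obtain ⟨κ, hκd⟩ : ∃ κ, κ = min 1 (2 * (d : ℝ) - |E|) := ⟨_, rfl⟩
    have hκ : 0 < κ := by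
      rw [hκd]
      exact lt_min one_pos (by linarith)
    have hκ1 : κ ≤ 1 := by rw [hκd]; exact min_le_left _ _
    have hκ2 : κ ≤ 2 * (d : ℝ) - |E| := by rw [hκd]; exact min_le_right _ _
    have hd0 : (0 : ℝ) ≤ d := Nat.cast_nonneg d
    have hR : Pool.Agent.TH794.QE.RegE d κ E := Or.inr ⟨hd, by linarith⟩
    obtain ⟨m, hm, h1⟩ := Pool.Agent.Q62.QD.G1_low hO d hd2 κ hκ hκ1
    have h2 := h1 E ⟨hR, by linarith⟩
    have h3 := (Pool.Agent.Q62.QD.bvals hO d hd2 κ hκ hκ1 E hR).2.2.2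
    rw [g1_eq d hd] at h2 h3
    rw [g0_eq d hd] at h3
    exact ⟨hm.trans_le h2, h3⟩
  · have h1 := Pool.Agent.Q62.QD.G0_tot hO d hd2
    simp only [g0_eq d hd] at h1
    exact h1
  · obtain ⟨σ0, hσ0, h⟩ := Pool.Agent.Q204.GA.qdG d hd φ hφ K ε hK hε
    refine ⟨σ0, hσ0, fun σ hσ hσ1 => ?_⟩
    obtain ⟨G, hG, hP, hL⟩ := h σ hσ hσ1
    refine ⟨G, hG, hP, fun ξ hξ a ha => ?_⟩
    obtain ⟨⟨C, hC, hξC⟩, hL'⟩ := hL ξ hξ
    refine ⟨?_, fun ψ hψ T hT1 hT2 q hq => ?_⟩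
    · obtain ⟨ψ, hψ, -⟩ := Pool.Agent.Q204.GA.sol_overU (fun x => -(σ * ξ x)) (σ * C)
        (by positivity) (fun x => by
          rw [abs_neg, abs_mul, abs_of_pos hσ, mul_assoc]
          exact mul_le_mul_of_nonneg_left (hξC x) hσ.le) a
      exact ⟨_, evo_of σ ξ a ψ hψ⟩
    · have h4 := hL' a ha _ (evo_conj σ ξ a ψ hψ) T hT1 hT2 q hq
      have h5 : ∀ x : Fin d → ℤ, Pool.Agent.TH794.HK.ph
          (fun i => Real.sqrt (σ ^ 2 / T) * q i) (x - a) = Complex.exp (Complex.I *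
            ((Real.sqrt (σ ^ 2 / T) * ∑ i, q i * ((x i : ℝ) - a i) : ℝ) : ℂ)) := by
        intro x
        unfold Pool.Agent.TH794.HK.ph
        rw [Finset.mul_sum]
        congr 3
        refine Finset.sum_congr rfl fun i _ => ?_
        simp only [Pi.sub_apply, Int.cast_sub]
        ring
      unfold Pool.Agent.Q62.QD.Xw at h4
      simp only [h5, N_eq d hd, Complex.norm_conj] at h4
      exact h4

end Pool.Agent.Results.MP_1906c1_mp.GaussianQuantumDiffusion
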